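import Mathlib

/-!
A counting form of the exponential moment bound for families of fair bits, and a union bound.
-/

namespace Pool.Agent.V7H26.Codeg

open Finset

section
variable {X : Type*} [DecidableEq X]

/-- Flip the bit at `x`. -/
def flipAt (x : X) (lam : X → Bool) : X → Bool := Function.update lam x (!lam x)

theorem flipAt_self (x : X) (lam : X → Bool) : flipAt x lam x = !lam x := by
  simp [flipAt]

theorem flipAt_ne {x y : X} (h : y ≠ x) (lam : X → Bool) : flipAt x lam y = lam y := by
  simp [flipAt, h]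

theorem flipAt_invol (x : X) : Function.Involutive (flipAt (X := X) x) := by
  intro lam
  funext y
  by_cases h : y = x
  · subst h
    simp [flipAt]
  · simp [flipAt, h]

variable [Fintype X]

theorem sum_step (x : X) (F : (X → Bool) → ℝ) (b : (X → Bool) → Bool) (y : ℝ)
    (hF : ∀ lam, F (flipAt x lam) = F lam) (hb : ∀ lam, b (flipAt x lam) = !b lam) :
    ∑ lam, F lam * (if b lam = true then 1 + y else 1) = (1 + y / 2) * ∑ lam, F lam := by
  have h1 : ∑ lam, F lam * (if b lam = true then 1 + y else 1) =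
      ∑ lam, F (flipAt x lam) * (if b (flipAt x lam) = true then 1 + y else 1) := by
    exact (Equiv.sum_comp (flipAt_invol x).toPerm
      (fun lam => F lam * (if b lam = true then 1 + y else 1))).symm
  have h2 : ∑ lam, F lam * (if b lam = true then 1 + y else 1) +
      ∑ lam, F lam * (if b lam = true then 1 + y else 1) = (2 + y) * ∑ lam, F lam := by
    nth_rewrite 2 [h1]
    rw [← Finset.sum_add_distrib, Finset.mul_sum]
    refine Finset.sum_congr rfl fun lam _ => ?_
    rw [hF, hb]
    cases b lam <;> simp <;> ring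
  linarith

theorem sum_prod {ι : Type*} [DecidableEq ι] (I : Finset ι) (b : ι → (X → Bool) → Bool)
    (κ : ι → X) (y : ℝ)
    (h1 : ∀ i ∈ I, ∀ lam, b i (flipAt (κ i) lam) = !b i lam)
    (h2 : ∀ i ∈ I, ∀ j ∈ I, i ≠ j → ∀ lam, b j (flipAt (κ i) lam) = b j lam) :
    ∑ lam, ∏ i ∈ I, (if b i lam = true then 1 + y else 1) =
      (1 + y / 2) ^ I.card * (Fintype.card (X → Bool) : ℝ) := by
  induction I using Finset.induction_on with
  | empty => simp
  | insert a s ha ih =>
    have ih' := ih (fun i hi => h1 i (Finset.mem_insert_of_mem hi))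
      (fun i hi j hj => h2 i (Finset.mem_insert_of_mem hi) j (Finset.mem_insert_of_mem hj))
    have h3 : ∀ lam : X → Bool, ∏ i ∈ insert a s, (if b i lam = true then 1 + y else 1) =
        (∏ i ∈ s, (if b i lam = true then 1 + y else 1)) * (if b a lam = true then 1 + y else 1) := by
      intro lam
      rw [Finset.prod_insert ha, mul_comm]
    simp_rw [h3]
    rw [sum_step (κ a) (fun lam => ∏ i ∈ s, (if b i lam = true then 1 + y else 1)) (b a) y, ih',
      Finset.card_insert_of_notMem ha]
    · ring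
    · intro lam
      refine Finset.prod_congr rfl fun i hi => ?_
      rw [h2 a (Finset.mem_insert_self a s) i (Finset.mem_insert_of_mem hi)]
      rintro rfl
      exact ha hi
    · exact h1 a (Finset.mem_insert_self a s)

theorem exists_good {E ι : Type*} [DecidableEq ι] (ev : Finset E) (I : E → Finset ι)
    (b : E → ι → (X → Bool) → Bool) (κ : E → ι → X) (m K : ℕ) (y : ℝ) (hy : 0 ≤ y)
    (h1 : ∀ e ∈ ev, ∀ i ∈ I e, ∀ lam, b e i (flipAt (κ e i) lam) = !b e i lam)
    (h2 : ∀ e ∈ ev, ∀ i ∈ I e, ∀ j ∈ I e, i ≠ j → ∀ lam, b e j (flipAt (κ e i) lam) = b e j lam)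
    (hI : ∀ e ∈ ev, (I e).card ≤ m)
    (hlt : (ev.card : ℝ) * (1 + y / 2) ^ m < (1 + y) ^ (K + 1)) :
    ∃ lam : X → Bool, ∀ e ∈ ev, ((I e).filter fun i => b e i lam = true).card ≤ K := by
  by_contra hcon
  push Not at hcon
  have hN : (0 : ℝ) < (Fintype.card (X → Bool) : ℝ) := by
    have : 0 < Fintype.card (X → Bool) := Fintype.card_pos
    exact_mod_cast this
  have hprod : ∀ e, ∀ lam : X → Bool, ∏ i ∈ I e, (if b e i lam = true then 1 + y else 1) =
      (1 + y) ^ ((I e).filter fun i => b e i lam = true).card := by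
    intro e lam
    rw [Finset.prod_ite]
    simp
  have hlow : (Fintype.card (X → Bool) : ℝ) * (1 + y) ^ (K + 1) ≤
      ∑ lam : X → Bool, ∑ e ∈ ev, ∏ i ∈ I e, (if b e i lam = true then 1 + y else 1) := by
    have : (Fintype.card (X → Bool) : ℝ) * (1 + y) ^ (K + 1) =
        ∑ _lam : X → Bool, (1 + y) ^ (K + 1) := by
      simp [Finset.sum_const, Finset.card_univ]
    rw [this]
    refine Finset.sum_le_sum fun lam _ => ?_
    obtain ⟨e, he, hc⟩ := hcon lam
    have hnn : ∀ e ∈ ev, 0 ≤ ∏ i ∈ I e, (if b e i lam = true then 1 + y else 1) := by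
      intro e _
      rw [hprod]
      positivity
    refine le_trans ?_ (Finset.single_le_sum hnn he)
    rw [hprod]
    exact pow_le_pow_right₀ (by linarith) hc
  have hup : ∑ lam : X → Bool, ∑ e ∈ ev, ∏ i ∈ I e, (if b e i lam = true then 1 + y else 1) ≤
      (ev.card : ℝ) * (1 + y / 2) ^ m * (Fintype.card (X → Bool) : ℝ) := by
    rw [Finset.sum_comm]
    have : ∀ e ∈ ev, ∑ lam : X → Bool, ∏ i ∈ I e, (if b e i lam = true then 1 + y else 1) ≤
        (1 + y / 2) ^ m * (Fintype.card (X → Bool) : ℝ) := by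
      intro e he
      rw [sum_prod (I e) (b e) (κ e) y (h1 e he) (h2 e he)]
      refine mul_le_mul_of_nonneg_right ?_ hN.le
      exact pow_le_pow_right₀ (by linarith) (hI e he)
    refine (Finset.sum_le_sum this).trans ?_
    rw [Finset.sum_const, nsmul_eq_mul, mul_assoc]
  have := hlow.trans hup
  have h4 : (ev.card : ℝ) * (1 + y / 2) ^ m * (Fintype.card (X → Bool) : ℝ) <
      (1 + y) ^ (K + 1) * (Fintype.card (X → Bool) : ℝ) :=
    mul_lt_mul_of_pos_right hlt hN
  nlinarith

end

end Pool.Agent.V7H26.Codeg
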