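import Pool.Agent.V7H26.Codeg.Table
import Pool.Agent.V7H26.Codeg.Prob

/-!
The random 6-graph given by a class function `c`, the table `tab` and bits `lam` on 5-sets.
-/

namespace Pool.Agent.V7H26.Codeg

open Finset

section
variable {n : ℕ} (c : Fin n → Fin 7) (lam : Finset (Fin n) → Bool)

/-- The code of the multiset of classes of a set. -/
def cd (A : Finset (Fin n)) : ℕ := ∑ x ∈ A, 8 ^ (c x : ℕ)

/-- `a < b` are the two smallest elements of class `t` in `A`. -/
def First (A : Finset (Fin n)) (t : Fin 7) (a b : Fin n) : Prop :=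
  a ∈ A ∧ b ∈ A ∧ c a = t ∧ c b = t ∧ a < b ∧ ∀ x ∈ A, c x = t → x = a ∨ x = b ∨ b < x

/-- The non-edges. -/
def Non (A : Finset (Fin n)) : Prop :=
  tab.get (cd c A) = 8 ∨ ∃ t : Fin 7, tab.get (cd c A) = (t : ℕ) + 1 ∧
    ∃ a b, First c A t a b ∧ lam (A.erase a) = lam (A.erase b)

/-- The multiplicity of a class in a set. -/
def mul (A : Finset (Fin n)) (t : Fin 7) : ℕ := (A.filter fun x => c x = t).card

theorem first_unique {A : Finset (Fin n)} {t : Fin 7} {a b a' b' : Fin n} (h : First c A t a b)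
    (h' : First c A t a' b') : a = a' ∧ b = b' := by
  obtain ⟨p1, p2, p3, p4, p5, p6⟩ := h
  obtain ⟨q1, q2, q3, q4, q5, q6⟩ := h'
  have r1 := p6 a' q1 q3
  have r2 := p6 b' q2 q4
  have r3 := q6 a p1 p3
  have r4 := q6 b p2 p4
  simp only [Fin.ext_iff, Fin.lt_def] at *
  omega

theorem codeL_ofFn (f : Fin 7 → ℕ) : codeL (List.ofFn f) = ∑ t : Fin 7, f t * 8 ^ (t : ℕ) := by
  simp [List.ofFn_succ, codeL, Fin.sum_univ_succ]
  ring

theorem cd_eq (A : Finset (Fin n)) : cd c A = codeL (List.ofFn (mul c A)) := by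
  rw [codeL_ofFn, cd, ← Finset.sum_fiberwise A (fun x => c x)]
  refine Finset.sum_congr rfl fun t _ => ?_
  have : ∀ x ∈ A.filter (fun x => c x = t), 8 ^ (c x : ℕ) = 8 ^ (t : ℕ) := by
    intro x hx
    rw [(Finset.mem_filter.mp hx).2]
  rw [Finset.sum_congr rfl this, Finset.sum_const, smul_eq_mul, mul]

theorem sum_mul (A : Finset (Fin n)) : (List.ofFn (mul c A)).sum = A.card := by
  rw [List.sum_ofFn]
  have := Finset.card_eq_sum_card_fiberwise (s := A) (t := univ) (f := c) (by simp)
  rw [this]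
  rfl

theorem cd_erase {A : Finset (Fin n)} {x : Fin n} (hx : x ∈ A) :
    cd c (A.erase x) = cd c A - 8 ^ (c x : ℕ) := by
  unfold cd
  rw [← Finset.add_sum_erase A _ hx]
  simp

theorem cd_insert {A : Finset (Fin n)} {x : Fin n} (hx : x ∉ A) :
    cd c (insert x A) = cd c A + 8 ^ (c x : ℕ) := by
  unfold cd
  rw [Finset.sum_insert hx, add_comm]

theorem three {S : Finset (Fin n)} (h : 3 ≤ S.card) :
    ∃ x1 x2 x3, x1 ∈ S ∧ x2 ∈ S ∧ x3 ∈ S ∧ x1 < x2 ∧ x2 < x3 ∧
      ∀ x ∈ S, x = x1 ∨ x = x2 ∨ x = x3 ∨ x3 < x := by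
  have hS : S.Nonempty := Finset.card_pos.mp (by omega)
  have h1 : (S.erase (S.min' hS)).Nonempty := by
    apply Finset.card_pos.mp
    rw [Finset.card_erase_of_mem (Finset.min'_mem S hS)]
    omega
  have h2 : ((S.erase (S.min' hS)).erase ((S.erase (S.min' hS)).min' h1)).Nonempty := by
    apply Finset.card_pos.mp
    rw [Finset.card_erase_of_mem (Finset.min'_mem _ h1),
      Finset.card_erase_of_mem (Finset.min'_mem S hS)]
    omega
  set x1 := S.min' hS with hx1
  set x2 := (S.erase x1).min' h1 with hx2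
  set x3 := ((S.erase x1).erase x2).min' h2 with hx3
  have m1 : x1 ∈ S := Finset.min'_mem S hS
  have m2 : x2 ∈ S.erase x1 := Finset.min'_mem _ h1
  have m3 : x3 ∈ (S.erase x1).erase x2 := Finset.min'_mem _ h2
  have m2' := Finset.mem_erase.mp m2
  have m3' := Finset.mem_erase.mp m3
  have m3'' := Finset.mem_erase.mp m3'.2
  have l1 : ∀ x ∈ S, x1 ≤ x := fun x hx => Finset.min'_le S x hx
  have l2 : ∀ x ∈ S.erase x1, x2 ≤ x := fun x hx => Finset.min'_le _ x hx
  have l3 : ∀ x ∈ (S.erase x1).erase x2, x3 ≤ x := fun x hx => Finset.min'_le _ x hx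
  refine ⟨x1, x2, x3, m1, m2'.2, m3''.2, lt_of_le_of_ne (l1 _ m2'.2) (Ne.symm m2'.1),
    lt_of_le_of_ne (l2 _ m3'.2) (Ne.symm m3'.1), ?_⟩
  intro x hx
  by_cases e1 : x = x1
  · exact Or.inl e1
  by_cases e2 : x = x2
  · exact Or.inr (Or.inl e2)
  by_cases e3 : x = x3
  · exact Or.inr (Or.inr (Or.inl e3))
  refine Or.inr (Or.inr (Or.inr ?_))
  refine lt_of_le_of_ne (l3 x ?_) (Ne.symm e3)
  simp [e1, e2, hx]

theorem cover {B : Finset (Fin n)} (hB : B.card = 7) : ∃ x ∈ B, Non c lam (B.erase x) := by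
  have h := allC_spec 7 7 test1 check1 (List.ofFn (mul c B)) (by simp) (by rw [sum_mul, hB])
  simp only [test1, List.any_eq_true, List.mem_range, Bool.or_eq_true, Bool.and_eq_true,
    Nat.ble_eq] at h
  obtain ⟨t, ht, h⟩ := h
  have hget : (List.ofFn (mul c B)).getD t 0 = mul c B ⟨t, ht⟩ := by
    rw [List.getD_eq_getElem _ _ (by simpa using ht), List.getElem_ofFn]
  rw [hget, ← cd_eq] at h
  rcases h with ⟨h1, h2⟩ | ⟨h1, h2⟩
  · obtain ⟨x, hx⟩ := Finset.card_pos.mp (show 0 < (B.filter fun x => c x = ⟨t, ht⟩).card from h1)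
    have hx' := Finset.mem_filter.mp hx
    refine ⟨x, hx'.1, Or.inl ?_⟩
    rw [cd_erase c hx'.1, hx'.2]
    exact Nat.eq_of_beq_eq_true h2
  · obtain ⟨x1, x2, x3, m1, m2, m3, h12, h23, hall⟩ := three (S := B.filter fun x => c x = ⟨t, ht⟩) h1
    simp only [Finset.mem_filter] at m1 m2 m3 hall
    have h13 : x1 < x3 := h12.trans h23
    have e : ∀ x, x ∈ B → c x = ⟨t, ht⟩ → tab.get (cd c (B.erase x)) = ((⟨t, ht⟩ : Fin 7) : ℕ) + 1 := by
      intro x hx hc
      rw [cd_erase c hx, hc]
      exact Nat.eq_of_beq_eq_true h2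
    have key : lam ((B.erase x1).erase x2) = lam ((B.erase x1).erase x3) ∨
        lam ((B.erase x2).erase x1) = lam ((B.erase x2).erase x3) ∨
        lam ((B.erase x3).erase x1) = lam ((B.erase x3).erase x2) := by
      rw [Finset.erase_right_comm (a := x2) (b := x1), Finset.erase_right_comm (a := x3) (b := x1),
        Finset.erase_right_comm (a := x3) (b := x2)]
      cases lam ((B.erase x1).erase x2) <;> cases lam ((B.erase x1).erase x3) <;>
        cases lam ((B.erase x2).erase x3) <;> simp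
    rcases key with k | k | k
    · refine ⟨x1, m1.1, Or.inr ⟨⟨t, ht⟩, e x1 m1.1 m1.2, x2, x3, ⟨?_, ?_, m2.2, m3.2, h23, ?_⟩, k⟩⟩
      · exact Finset.mem_erase.mpr ⟨h12.ne', m2.1⟩
      · exact Finset.mem_erase.mpr ⟨h13.ne', m3.1⟩
      · intro x hx hc
        have hx' := Finset.mem_erase.mp hx
        rcases hall x ⟨hx'.2, hc⟩ with r | r | r | r
        · exact absurd r hx'.1
        · exact Or.inl r
        · exact Or.inr (Or.inl r)
        · exact Or.inr (Or.inr r)
    · refine ⟨x2, m2.1, Or.inr ⟨⟨t, ht⟩, e x2 m2.1 m2.2, x1, x3, ⟨?_, ?_, m1.2, m3.2, h13, ?_⟩, k⟩⟩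
      · exact Finset.mem_erase.mpr ⟨h12.ne, m1.1⟩
      · exact Finset.mem_erase.mpr ⟨h23.ne', m3.1⟩
      · intro x hx hc
        have hx' := Finset.mem_erase.mp hx
        rcases hall x ⟨hx'.2, hc⟩ with r | r | r | r
        · exact Or.inl r
        · exact absurd r hx'.1
        · exact Or.inr (Or.inl r)
        · exact Or.inr (Or.inr r)
    · refine ⟨x3, m3.1, Or.inr ⟨⟨t, ht⟩, e x3 m3.1 m3.2, x1, x2, ⟨?_, ?_, m1.2, m2.2, h12, ?_⟩, k⟩⟩
      · exact Finset.mem_erase.mpr ⟨h13.ne, m1.1⟩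
      · exact Finset.mem_erase.mpr ⟨h23.ne, m2.1⟩
      · intro x hx hc
        have hx' := Finset.mem_erase.mp hx
        rcases hall x ⟨hx'.2, hc⟩ with r | r | r | r
        · exact Or.inl r
        · exact Or.inr (Or.inl r)
        · exact absurd r hx'.1
        · exact Or.inr (Or.inr (h23.trans r))

open Classical in
theorem degree {T : Finset (Fin n)} (hT : T.card = 5) {m K : ℕ} (hmK : m ≤ 2 * K)
    (hfib : ∀ u, (univ.filter fun v => c v = u).card ≤ m)
    (hgood : ∀ u t, (univ.filter fun v => v ∉ T ∧ c v = u ∧ ∃ a b, First c (insert v T) t a b ∧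
      lam ((insert v T).erase a) = lam ((insert v T).erase b)).card ≤ K) :
    (univ.filter fun v => v ∉ T ∧ Non c lam (insert v T)).card ≤ 6 * K := by
  have h := allC_spec 7 5 test2 check2 (List.ofFn (mul c T)) (by simp) (by rw [sum_mul, hT])
  simp only [test2, Nat.ble_eq] at h
  rw [← cd_eq] at h
  have hsum : ∑ u : Fin 7, wt (tab.get (cd c T + 8 ^ (u : ℕ))) ≤ 6 := by
    rw [Fin.sum_univ_seven]
    exact h
  have hfw := Finset.card_eq_sum_card_fiberwise
    (s := univ.filter fun v => v ∉ T ∧ Non c lam (insert v T)) (t := univ) (f := c) (by simp)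
  rw [hfw]
  have hu : ∀ u ∈ (univ : Finset (Fin 7)),
      ((univ.filter fun v => v ∉ T ∧ Non c lam (insert v T)).filter fun v => c v = u).card ≤
        wt (tab.get (cd c T + 8 ^ (u : ℕ))) * K := by
    intro u _
    by_cases h8 : tab.get (cd c T + 8 ^ (u : ℕ)) = 8
    · rw [h8]
      have : wt 8 = 2 := by decide
      rw [this]
      refine le_trans ?_ hmK
      refine le_trans (Finset.card_le_card ?_) (hfib u)
      intro v hv
      simp only [Finset.mem_filter] at hv ⊢
      exact ⟨hv.1.1, hv.2⟩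
    · by_cases h0 : ∃ t : Fin 7, tab.get (cd c T + 8 ^ (u : ℕ)) = (t : ℕ) + 1
      · obtain ⟨t, ht⟩ := h0
        have hw : wt (tab.get (cd c T + 8 ^ (u : ℕ))) = 1 := by
          rw [ht]
          fin_cases t <;> decide
        rw [hw, one_mul]
        refine le_trans (Finset.card_le_card ?_) (hgood u t)
        intro v hv
        simp only [Finset.mem_filter, Finset.mem_univ, true_and] at hv ⊢
        obtain ⟨⟨hvT, hN⟩, hcu⟩ := hv
        refine ⟨hvT, hcu, ?_⟩
        unfold Non at hN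
        rw [cd_insert c hvT, hcu] at hN
        rcases hN with hN | ⟨t', ht', hN⟩
        · exact absurd hN h8
        · have : t' = t := by
            apply Fin.ext
            omega
          subst this
          exact hN
      · have : ((univ.filter fun v => v ∉ T ∧ Non c lam (insert v T)).filter
            fun v => c v = u) = ∅ := by
          rw [Finset.filter_eq_empty_iff]
          intro v hv hcu
          simp only [Finset.mem_filter, Finset.mem_univ, true_and] at hv
          obtain ⟨hvT, hN⟩ := hv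
          unfold Non at hN
          rw [cd_insert c hvT, hcu] at hN
          rcases hN with hN | ⟨t', ht', hN⟩
          · exact h8 hN
          · exact h0 ⟨t', ht'⟩
        rw [this]
        simp
  refine (Finset.sum_le_sum hu).trans ?_
  rw [← Finset.sum_mul]
  exact Nat.mul_le_mul_right K hsum

end

open Classical in
/-- For suitable parameters there are bits for which all degrees are controlled. -/
theorem exists_lam {n : ℕ} (c : Fin n → Fin 7) (m K : ℕ) (y : ℝ) (hy : 0 ≤ y)
    (hfib : ∀ u, (univ.filter fun v => c v = u).card ≤ m)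
    (hlt : (49 * n ^ 5 : ℝ) * (1 + y / 2) ^ m < (1 + y) ^ (K + 1)) :
    ∃ lam : Finset (Fin n) → Bool, ∀ T : Finset (Fin n), T.card = 5 → ∀ u t,
      (univ.filter fun v => v ∉ T ∧ c v = u ∧ ∃ a b, First c (insert v T) t a b ∧
        lam ((insert v T).erase a) = lam ((insert v T).erase b)).card ≤ K := by
  -- events: triples (T, u, t)
  let ev : Finset (Finset (Fin n) × Fin 7 × Fin 7) := (powersetCard 5 univ) ×ˢ univ
  let P : Finset (Fin n) × Fin 7 × Fin 7 → Fin n → Fin n × Fin n → Prop :=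
    fun e v ab => First c (insert v e.1) e.2.2 ab.1 ab.2
  let I : Finset (Fin n) × Fin 7 × Fin 7 → Finset (Fin n) :=
    fun e => univ.filter fun v => v ∉ e.1 ∧ c v = e.2.1 ∧ ∃ ab, P e v ab
  let g : Finset (Fin n) × Fin 7 × Fin 7 → Fin n → Fin n × Fin n :=
    fun e v => if h : ∃ ab, P e v ab then Classical.choose h else (v, v)
  have hg : ∀ e v, (∃ ab, P e v ab) → P e v (g e v) := by
    intro e v h
    simp only [g, dif_pos h]
    exact Classical.choose_spec h
  let b : Finset (Fin n) × Fin 7 × Fin 7 → Fin n → (Finset (Fin n) → Bool) → Bool :=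
    fun e v lam => decide (lam ((insert v e.1).erase (g e v).1) = lam ((insert v e.1).erase (g e v).2))
  let κ : Finset (Fin n) × Fin 7 × Fin 7 → Fin n → Finset (Fin n) :=
    fun e v => if v = (g e v).1 then (insert v e.1).erase (g e v).2 else (insert v e.1).erase (g e v).1
  have hcard : (ev.card : ℝ) ≤ 49 * n ^ 5 := by
    have h1 : ev.card = n.choose 5 * 49 := by
      simp [ev, Finset.card_product]
    have h2 : n.choose 5 ≤ n ^ 5 := Nat.choose_le_pow n 5
    have h3 : ev.card ≤ 49 * n ^ 5 := by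
      rw [h1]
      nlinarith
    exact_mod_cast h3
  have hmem : ∀ e v, v ∈ I e → v ∉ e.1 ∧ c v = e.2.1 ∧ P e v (g e v) := by
    intro e v hv
    simp only [I, Finset.mem_filter, Finset.mem_univ, true_and] at hv
    exact ⟨hv.1, hv.2.1, hg e v hv.2.2⟩
  have hne : ∀ e v, v ∈ I e →
      (insert v e.1).erase (g e v).1 ≠ (insert v e.1).erase (g e v).2 := by
    intro e v hv heq
    obtain ⟨_, _, hP⟩ := hmem e v hv
    have h1 : (g e v).2 ∈ (insert v e.1).erase (g e v).1 :=
      Finset.mem_erase.mpr ⟨hP.2.2.2.2.1.ne', hP.2.1⟩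
    rw [heq] at h1
    exact (Finset.mem_erase.mp h1).1 rfl
  have H1 : ∀ e ∈ ev, ∀ i ∈ I e, ∀ lam, b e i (flipAt (κ e i) lam) = !b e i lam := by
    intro e _ v hv lam
    obtain ⟨hvT, hcu, hP⟩ := hmem e v hv
    have hn := hne e v hv
    simp only [b, κ]
    by_cases hva : v = (g e v).1
    · rw [if_pos hva, flipAt_self, flipAt_ne hn]
      cases lam ((insert v e.1).erase (g e v).1) <;>
        cases lam ((insert v e.1).erase (g e v).2) <;> rfl
    · rw [if_neg hva, flipAt_self, flipAt_ne hn.symm]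
      cases lam ((insert v e.1).erase (g e v).1) <;>
        cases lam ((insert v e.1).erase (g e v).2) <;> rfl
  have H2 : ∀ e ∈ ev, ∀ i ∈ I e, ∀ j ∈ I e, i ≠ j → ∀ lam,
      b e j (flipAt (κ e i) lam) = b e j lam := by
    intro e _ v hv w hw hvw lam
    obtain ⟨hvT, hcu, hP⟩ := hmem e v hv
    have hvk : v ∈ κ e v := by
      simp only [κ]
      by_cases hva : v = (g e v).1
      · rw [if_pos hva]
        refine Finset.mem_erase.mpr ⟨?_, Finset.mem_insert_self _ _⟩
        intro h
        have := hP.2.2.2.2.1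
        rw [← h, ← hva] at this
        exact lt_irrefl _ this
      · rw [if_neg hva]
        exact Finset.mem_erase.mpr ⟨hva, Finset.mem_insert_self _ _⟩
    have hnot : v ∉ insert w e.1 := by
      simp [hvw, hvT]
    have hd : ∀ a, (insert w e.1).erase a ≠ κ e v := by
      intro a h
      rw [← h] at hvk
      exact hnot (Finset.mem_of_mem_erase hvk)
    simp only [b]
    rw [flipAt_ne (hd _), flipAt_ne (hd _)]
  have H3 : ∀ e ∈ ev, (I e).card ≤ m := by
    intro e _
    refine le_trans (Finset.card_le_card ?_) (hfib e.2.1)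
    intro v hv
    simp only [I, Finset.mem_filter, Finset.mem_univ, true_and] at hv ⊢
    exact hv.2.1
  have H4 : (ev.card : ℝ) * (1 + y / 2) ^ m < (1 + y) ^ (K + 1) := by
    refine lt_of_le_of_lt ?_ hlt
    exact mul_le_mul_of_nonneg_right hcard (by positivity)
  obtain ⟨lam, hlam⟩ := exists_good ev I b κ m K y hy H1 H2 H3 H4
  refine ⟨lam, fun T hT u t => ?_⟩
  have he : (T, u, t) ∈ ev := by
    simp [ev, hT]
  refine le_trans (Finset.card_le_card ?_) (hlam _ he)
  intro v hv
  simp only [Finset.mem_filter, Finset.mem_univ, true_and] at hv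
  obtain ⟨hvT, hcu, a, a', hF, hl⟩ := hv
  have hvI : v ∈ I (T, u, t) := by
    simp only [I, Finset.mem_filter, Finset.mem_univ, true_and]
    exact ⟨hvT, hcu, (a, a'), hF⟩
  obtain ⟨_, _, hP⟩ := hmem _ v hvI
  refine Finset.mem_filter.mpr ⟨hvI, ?_⟩
  have hu1 : (g (T, u, t) v).1 = a ∧ (g (T, u, t) v).2 = a' := first_unique c hP hF
  simp only [b, hu1.1, hu1.2, hl, decide_true]

end Pool.Agent.V7H26.Codeg
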