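import Mathlib

/-!
A status table for multisets of six vertex classes out of seven.
A multiset with multiplicities `f 0, ..., f 6` is coded by the number `f 0 * 8^0 + ... + f 6 * 8^6`.
The value `8` means: never an edge.  The value `t + 1` with `t < 7` means: the decision is taken with
random bits by means of the two smallest vertices of class `t`.  The value `0` means: always an edge.
-/

namespace Pool.Agent.V7H26.Codeg

/-- Binary search trees with keys and values in the natural numbers. -/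
inductive Tr : Type where
  | L : Tr
  | D : Tr → ℕ → ℕ → Tr → Tr

/-- Look up the value of a key, with default `0`. -/
def Tr.get : Tr → ℕ → ℕ
  | .L, _ => 0
  | .D l k v r, x =>
    match Nat.blt x k with
    | true => l.get x
    | false =>
      match Nat.beq x k with
      | true => v
      | false => r.get x

open Tr in
/-- The table. -/
def tab : Tr :=
  (D (D (D (D (D (D (D (D (D L 6 8 L) 20 8 (D L 27 8 L)) 34 8 (D (D L 41 8 L) 48 8 L)) 76 8 (D (D
  (D L 132 8 L) 139 8 L) 153 8 (D (D L 160 8 L) 195 8 L))) 209 8 (D (D (D (D L 216 8 L) 258 8 L)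
  265 8 (D (D L 272 8 L) 321 8 L)) 328 8 (D (D (D L 384 8 L) 524 1 L) 580 1 (D (D L 594 8 L) 608 8
  L)))) 713 8 (D (D (D (D (D L 1028 8 L) 1042 8 L) 1056 8 (D (D L 1098 8 L) 1105 8 L)) 1112 8 (D
  (D (D L 1154 8 L) 1161 8 L) 1224 8 (D (D L 1280 8 L) 1539 8 L))) 1560 8 (D (D (D (D L 1672 8 L)
  1728 8 L) 2050 8 (D (D L 2064 8 L) 2120 8 L)) 2176 8 (D (D (D L 2568 8 L) 2624 8 L) 3072 8 (D (D
  L 4108 1 L) 4164 1 L))))) 4178 8 (D (D (D (D (D (D L 4185 2 L) 4192 2 L) 4290 8 (D (D L 4612 8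
  L) 4619 8 L)) 4626 8 (D (D (D L 4633 8 L) 4640 2 L) 4738 8 (D (D L 4752 8 L) 4864 8 L))) 5186 8
  (D (D (D (D L 5249 8 L) 5641 8 L) 5697 4 (D (D L 5704 8 L) 6145 4 L)) 8196 8 (D (D (D L 8210 8
  L) 8224 8 L) 8259 8 (D (D L 8266 8 L) 8273 8 L)))) 8329 8 (D (D (D (D (D L 8336 8 L) 8448 8 L)
  8784 8 (D (D L 8833 8 L) 8840 8 L)) 8896 8 (D (D (D L 9218 8 L) 9232 8 L) 9288 8 (D (D L 9792 8
  L) 10240 8 L))) 12291 8 (D (D (D (D L 12312 8 L) 12354 8 L) 12480 8 (D (D L 12809 8 L) 13376 8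
  L)) 13824 8 (D (D (D L 16386 8 L) 16393 8 L) 16400 8 (D (D L 16512 8 L) 16960 8 L)))))) 17408 8
  (D (D (D (D (D (D (D L 20544 8 L) 20992 8 L) 24576 8 (D (D L 32773 8 L) 32850 8 L)) 32857 2 (D
  (D (D L 32864 2 L) 32906 8 L) 33291 8 (D (D L 33305 8 L) 33312 2 L))) 33347 8 (D (D (D (D L
  33424 8 L) 33473 8 L) 33480 3 (D (D L 33536 3 L) 33795 8 L)) 34306 8 (D (D (D L 34313 4 L) 34320
  8 L) 34369 8 (D (D L 34817 4 L) 36875 8 L)))) 36889 8 (D (D (D (D (D L 36896 8 L) 36931 1 L)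
  36952 8 (D (D L 36994 8 L) 37001 8 L)) 37008 8 (D (D (D L 37057 8 L) 37064 8 L) 37120 3 (D (D L
  37449 8 L) 37890 8 L))) 37904 8 (D (D (D (D L 38016 8 L) 38912 8 L) 41474 8 (D (D L 41488 8 L)
  41985 8 L)) 41992 8 (D (D (D L 45065 8 L) 45121 8 L) 45128 8 (D (D L 45569 5 L) 45576 5 L)))))
  45632 8 (D (D (D (D (D (D L 49153 5 L) 49160 5 L) 65540 8 (D (D L 65554 8 L) 65568 8 L)) 65603 8
  (D (D (D L 65610 8 L) 65617 8 L) 65680 8 (D (D L 65729 8 L) 65792 8 L))) 66072 8 (D (D (D (D L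
  66114 8 L) 66128 8 L) 66184 8 (D (D L 66569 8 L) 66632 8 L)) 66688 8 (D (D (D L 67584 8 L) 70146
  8 L) 70153 8 (D (D L 70272 8 L) 70664 8 L)))) 70720 8 (D (D (D (D (D L 71168 8 L) 73730 8 L)
  73737 8 (D (D L 73744 8 L) 73856 8 L)) 74304 8 (D (D (D L 78336 8 L) 81920 8 L) 98307 8 (D (D L
  98328 8 L) 98433 8 L))) 98496 8 (D (D (D (D L 98825 8 L) 98832 8 L) 98881 6 (D (D L 99329 8 L)
  99840 8 L)) 102409 8 (D (D (D L 102465 8 L) 102472 8 L) 107008 8 (D (D L 110592 8 L) 131074 8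
  L))))))) 131081 6 (D (D (D (D (D (D (D (D L 131088 8 L) 131137 6 (D L 131144 8 L)) 131200 8 (D
  (D L 132096 8 L) 135680 8 L)) 139264 8 (D (D (D L 164352 8 L) 167936 8 L) 196608 8 (D (D L
  262149 8 L) 262163 8 L))) 262170 8 (D (D (D (D L 262177 8 L) 262184 8 L) 262233 8 (D (D L 262282
  8 L) 262289 8 L)) 262667 1 (D (D (D L 262723 8 L) 262800 8 L) 262849 8 (D (D L 262856 3 L)
  262912 3 L)))) 263178 8 (D (D (D (D (D L 263185 8 L) 263248 8 L) 263745 8 (D (D L 264193 8 L)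
  266251 1 L)) 266307 8 (D (D (D L 266328 8 L) 266433 3 L) 266440 8 (D (D L 266496 3 L) 266755 8
  L))) 266769 8 (D (D (D (D L 266776 8 L) 266825 8 L) 267392 8 (D (D L 267777 8 L) 267784 8 L))
  267840 4 (D (D (D L 268288 4 L) 270346 8 L) 270360 8 (D (D L 270465 8 L) 270913 8 L))))) 271361
  8 (D (D (D (D (D (D L 274448 8 L) 274497 8 L) 274504 5 (D (D L 274560 8 L) 274945 8 L)) 274952 8
  (D (D (D L 278529 5 L) 278536 5 L) 294916 8 (D (D L 294923 8 L) 294930 8 L))) 295000 8 (D (D (D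
  (D L 295042 8 L) 295112 8 L) 295168 8 (D (D L 295448 2 L) 295490 8 L)) 295497 8 (D (D (D L
  295616 8 L) 295952 8 L) 296008 8 (D (D L 296064 8 L) 296456 8 L)))) 296512 8 (D (D (D (D (D L
  296960 4 L) 299081 8 L) 299529 8 (D (D L 299585 8 L) 299592 8 L)) 303106 8 (D (D (D L 303120 8
  L) 303232 8 L) 304128 8 (D (D L 311296 8 L) 327697 8 L))) 327809 8 (D (D (D (D L 328194 8 L)
  328705 8 L) 331778 8 (D (D L 331792 8 L) 331904 8 L)) 335873 8 (D (D (D L 335880 8 L) 335936 8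
  L) 360450 8 (D (D L 360520 8 L) 360968 8 L)))))) 361024 8 (D (D (D (D (D (D (D L 364552 6 L)
  364608 6 L) 365056 8 (D (D L 393217 8 L) 393224 6 L)) 393280 6 (D (D (D L 524292 8 L) 524320 8
  L) 524362 8 (D (D L 524418 8 L) 524425 8 L))) 524432 8 (D (D (D (D L 524544 8 L) 524810 8 L)
  524824 8 (D (D L 524866 8 L) 524880 8 L)) 524936 8 (D (D (D L 525314 8 L) 525321 8 L) 525440 8
  (D (D L 525832 8 L) 526336 8 L)))) 528394 8 (D (D (D (D (D L 528401 8 L) 528576 8 L) 528912 8 (D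
  (D L 529024 8 L) 529472 8 L)) 532482 8 (D (D (D L 532489 8 L) 532552 8 L) 533056 8 (D (D L
  533504 8 L) 540672 8 L))) 557059 8 (D (D (D (D L 557073 8 L) 557185 8 L) 558081 8 (D (D L 561154
  8 L) 561168 8 L)) 561224 8 (D (D (D L 562176 8 L) 565312 8 L) 565760 8 (D (D L 569344 8 L)
  589833 8 L))))) 589840 8 (D (D (D (D (D (D L 589889 8 L) 589896 8 L) 589952 8 (D (D L 590337 8
  L) 590848 8 L)) 594432 8 (D (D (D L 626688 8 L) 655360 8 L) 786435 8 (D (D L 786449 8 L) 786456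
  8 L))) 786624 8 (D (D (D (D L 787009 8 L) 787464 8 L) 787968 8 (D (D L 790593 8 L) 790600 8 L))
  790656 8 (D (D (D L 791041 8 L) 791048 7 L) 794632 8 (D (D L 798720 8 L) 819202 8 L)))) 819265 7
  (D (D (D (D (D L 819272 8 L) 819713 7 L) 819720 8 (D (D L 819776 8 L) 823297 8 L)) 856064 8 (D
  (D (D L 884736 8 L) 1048578 8 L) 1048585 8 (D (D L 1048592 8 L) 1048641 7 L))) 1048648 7 (D (D
  (D (D L 1048704 8 L) 1049089 7 L) 1049096 7 (D (D L 1049152 8 L) 1049600 8 L)) 1056768 8 (D (D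
  (D L 1085440 8 L) 1114112 8 L) 1314816 8 (D (D L 1343488 8 L) 1572864 8 L))))))))

/-- `allC n s p`: the test `p` succeeds on all lists of length `n` with sum `s`. -/
def allC : ℕ → ℕ → (List ℕ → Bool) → Bool
  | 0, 0, p => p []
  | 0, _ + 1, _ => true
  | n + 1, s, p => (List.range (s + 1)).all fun i => allC n (s - i) fun l => p (i :: l)

theorem allC_spec : ∀ (n s : ℕ) (p : List ℕ → Bool),
    allC n s p = true → ∀ l : List ℕ, l.length = n → l.sum = s → p l = true := by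
  intro n
  induction n with
  | zero =>
    intro s p h l hl hs
    rw [List.length_eq_zero_iff] at hl
    subst hl
    simp at hs
    subst hs
    exact h
  | succ n ih =>
    intro s p h l hl hs
    cases l with
    | nil => simp at hl
    | cons a l =>
      simp only [allC, List.all_eq_true, List.mem_range] at h
      simp only [List.length_cons, Nat.add_right_cancel_iff] at hl
      simp only [List.sum_cons] at hs
      exact ih (s - a) _ (h a (by omega)) l hl (by omega)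

/-- The code of a list of multiplicities. -/
def codeL : List ℕ → ℕ
  | [] => 0
  | a :: l => a + 8 * codeL l

/-- The coverage test for a multiset of seven classes. -/
def test1 (l : List ℕ) : Bool :=
  (List.range 7).any fun t =>
    (Nat.ble 1 (l.getD t 0) && Nat.beq (tab.get (codeL l - 8 ^ t)) 8) ||
      (Nat.ble 3 (l.getD t 0) && Nat.beq (tab.get (codeL l - 8 ^ t)) (t + 1))

/-- Twice the weight of a status. -/
def wt (x : ℕ) : ℕ :=
  match Nat.beq x 8 with
  | true => 2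
  | false =>
    match Nat.beq x 0 with
    | true => 0
    | false => 1

/-- The degree test for a multiset of five classes. -/
def test2 (l : List ℕ) : Bool :=
  Nat.ble (wt (tab.get (codeL l + 8 ^ 0)) + wt (tab.get (codeL l + 8 ^ 1)) +
    wt (tab.get (codeL l + 8 ^ 2)) + wt (tab.get (codeL l + 8 ^ 3)) +
    wt (tab.get (codeL l + 8 ^ 4)) + wt (tab.get (codeL l + 8 ^ 5)) +
    wt (tab.get (codeL l + 8 ^ 6))) 6

theorem check1 : allC 7 7 test1 = true := by decide +kernel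

theorem check2 : allC 7 5 test2 = true := by decide +kernel

end Pool.Agent.V7H26.Codeg
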